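import Mathlib

/-!
# Counting part for MP_8e531e_co

Points of the grid `[a]^(m+1)`, lines in the coordinate directions, and random 2-colourings of all lines.
-/

set_option autoImplicit false

open Finset

namespace Pool.Agent.H972R4.EdwardsKing

/-- points of the grid -/
abbrev Core (m a : ℕ) : Type := Fin (m + 1) → Fin a

/-- lines of the grid: a direction and the remaining coordinates -/
abbrev Line (m a : ℕ) : Type := Fin (m + 1) × (Fin m → Fin a)

/-- the line in direction `i` through `x` -/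
def ln {m a : ℕ} (i : Fin (m + 1)) (x : Core m a) : Line m a := (i, fun j => x (i.succAbove j))

theorem ln_eq_iff {m a : ℕ} (i : Fin (m + 1)) (x y : Core m a) :
    ln i x = ln i y ↔ ∀ j, j ≠ i → x j = y j := by
  constructor
  · intro h j hj
    obtain ⟨k, hk⟩ := Fin.exists_succAbove_eq hj
    have h2 := congrArg Prod.snd h
    have h3 := congrFun h2 k
    simp only [ln, hk] at h3
    exact h3
  · intro h
    simp only [ln, Prod.mk.injEq, true_and]
    funext j
    exact h _ (Fin.succAbove_ne i j)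

/-- the points all of whose line colours agree with `σ` -/
def SS {m a : ℕ} (c : Core m a → Fin (m + 1) → Bool) (σ : Line m a → Bool) : Finset (Core m a) :=
  univ.filter (fun x => c x = fun i => σ (ln i x))

theorem card_line (m a : ℕ) : Fintype.card (Line m a) = (m + 1) * a ^ m := by
  simp [Line, Fintype.card_prod, Fintype.card_fun]

theorem card_core (m a : ℕ) : Fintype.card (Core m a) = a ^ (m + 1) := by
  simp [Core, Fintype.card_fun]

theorem pow_card_SS {m a : ℕ} (c : Core m a → Fin (m + 1) → Bool) (σ : Line m a → Bool) (t : ℝ) :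
    t ^ (SS c σ).card = ∏ x, (if c x = (fun i => σ (ln i x)) then t else 1) := by
  rw [Finset.prod_ite, Finset.prod_const, Finset.prod_const_one, mul_one]
  rfl

theorem sum_pow (m a : ℕ) (σ : Line m a → Bool) (t : ℝ) :
    ∑ c : Core m a → Fin (m + 1) → Bool, t ^ (SS c σ).card =
      (t + ((2 : ℝ) ^ (m + 1) - 1)) ^ (a ^ (m + 1)) := by
  have h1 : ∀ x : Core m a,
      ∑ v : Fin (m + 1) → Bool, (if v = (fun i => σ (ln i x)) then t else (1 : ℝ)) =
        t + ((2 : ℝ) ^ (m + 1) - 1) := by
    intro x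
    have : ∀ v : Fin (m + 1) → Bool, (if v = (fun i => σ (ln i x)) then t else (1 : ℝ)) =
        (if v = (fun i => σ (ln i x)) then (t - 1) else 0) + 1 := by
      intro v; split_ifs <;> ring
    rw [Finset.sum_congr rfl fun v _ => this v, Finset.sum_add_distrib, Finset.sum_ite_eq']
    simp [Fintype.card_fun]
    ring
  have h2 := Finset.prod_univ_sum (fun _ : Core m a => (univ : Finset (Fin (m + 1) → Bool)))
    (fun x v => (if v = (fun i => σ (ln i x)) then t else (1 : ℝ)))
  rw [Fintype.piFinset_univ] at h2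
  rw [Finset.sum_congr rfl fun c _ => pow_card_SS c σ t, ← h2,
    Finset.prod_congr rfl fun x _ => h1 x, Finset.prod_const, Finset.card_univ, card_core]

theorem exists_coloring (m a q : ℕ) (ha : a = 2 ^ q) (hq : q ≤ m + 1) :
    ∃ c : Core m a → Fin (m + 1) → Bool, ∀ σ : Line m a → Bool,
      (m + 1 - q) * (SS c σ).card ≤ (m + 3) * a ^ m := by
  have ha1 : 1 ≤ a := by rw [ha]; exact Nat.one_le_two_pow
  have haR : (a : ℝ) = 2 ^ q := by rw [ha]; push_cast; rfl
  have ha0 : (0 : ℝ) < a := by exact_mod_cast ha1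
  set t : ℝ := 2 ^ (m + 1 - q) + 1 with ht
  have ht1 : (1 : ℝ) ≤ t := by rw [ht]; have : (0 : ℝ) ≤ 2 ^ (m + 1 - q) := by positivity
                               linarith
  have ht2 : (2 : ℝ) ^ (m + 1 - q) ≤ t := by rw [ht]; linarith
  set N : ℕ := a ^ (m + 1) with hN
  set K : ℝ := (2 : ℝ) ^ ((m + 1) * a ^ m) * (1 + 1 / (a : ℝ)) ^ N with hK
  have hbase : t + ((2 : ℝ) ^ (m + 1) - 1) = 2 ^ (m + 1) * (1 + 1 / (a : ℝ)) := by
    rw [ht, haR, mul_add, mul_one]
    have : (2 : ℝ) ^ (m + 1) * (1 / 2 ^ q) = 2 ^ (m + 1 - q) := by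
      rw [mul_one_div, div_eq_iff (by positivity), ← pow_add]
      congr 1; omega
    rw [this]; ring
  -- total count
  have hsum : ∑ c : Core m a → Fin (m + 1) → Bool, ∑ σ : Line m a → Bool, t ^ (SS c σ).card =
      ∑ _c : Core m a → Fin (m + 1) → Bool, K := by
    rw [Finset.sum_comm, Finset.sum_congr rfl fun σ _ => sum_pow m a σ t, Finset.sum_const,
      Finset.sum_const, Finset.card_univ, Finset.card_univ, Fintype.card_fun, Fintype.card_fun,
      Fintype.card_fun, card_line, card_core, hbase, hK, mul_pow]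
    simp only [Fintype.card_bool, Fintype.card_fin, nsmul_eq_mul]
    push_cast
    rw [← hN]
    ring
  obtain ⟨c, -, hc⟩ := Finset.exists_le_of_sum_le (s := (univ : Finset (Core m a → Fin (m + 1) → Bool)))
    Finset.univ_nonempty hsum.le
  refine ⟨c, fun σ => ?_⟩
  have h1 : t ^ (SS c σ).card ≤ K := by
    refine le_trans ?_ hc
    exact Finset.single_le_sum (f := fun σ : Line m a → Bool => t ^ (SS c σ).card)
      (fun σ _ => by positivity) (Finset.mem_univ σ)
  have h2 : (1 + 1 / (a : ℝ)) ^ a ≤ 4 := by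
    have e1 : 1 + 1 / (a : ℝ) ≤ Real.exp (1 / a) := by
      have := Real.add_one_le_exp (1 / (a : ℝ)); linarith
    calc (1 + 1 / (a : ℝ)) ^ a ≤ (Real.exp (1 / a)) ^ a :=
          pow_le_pow_left₀ (by positivity) e1 a
      _ = Real.exp 1 := by
          rw [← Real.exp_nat_mul]; congr 1; field_simp
      _ ≤ 4 := by have := Real.exp_one_lt_d9; linarith
  have h3 : (1 + 1 / (a : ℝ)) ^ N ≤ 2 ^ (2 * a ^ m) := by
    rw [hN, pow_succ, mul_comm, pow_mul, pow_mul]
    have : ((2 : ℝ) ^ 2) = 4 := by norm_num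
    rw [this]
    exact pow_le_pow_left₀ (by positivity) h2 _
  have h4 : K ≤ 2 ^ ((m + 3) * a ^ m) := by
    have : (m + 3) * a ^ m = (m + 1) * a ^ m + 2 * a ^ m := by ring
    rw [hK, this, pow_add]
    exact mul_le_mul_of_nonneg_left h3 (by positivity)
  have h5 : (2 : ℝ) ^ ((m + 1 - q) * (SS c σ).card) ≤ 2 ^ ((m + 3) * a ^ m) := by
    rw [pow_mul]
    exact le_trans (pow_le_pow_left₀ (by positivity) ht2 _) (le_trans h1 h4)
  exact (pow_le_pow_iff_right₀ (by norm_num : (1 : ℝ) < 2)).mp h5

end Pool.Agent.H972R4.EdwardsKing
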