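import Pool.Agent.H972R4.EdwardsKing.Count

/-!
# The graph for MP_8e531e_co

Core: the grid `[a]^(m+1)`, two points adjacent if they lie on a common line and have different colours there.
Gadgets: for every line a clique of size `s`, completely joined to the line.
-/

set_option autoImplicit false

open Finset

namespace Pool.Agent.H972R4.EdwardsKing

abbrev Vt (m a s : ℕ) : Type := Core m a ⊕ (Line m a × Fin s)

/-- adjacency -/
def adj {m a s : ℕ} (c : Core m a → Fin (m + 1) → Bool) : Vt m a s → Vt m a s → Prop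
  | Sum.inl x, Sum.inl y => ∃ i, ln i x = ln i y ∧ c x i ≠ c y i
  | Sum.inl x, Sum.inr g => ln g.1.1 x = g.1
  | Sum.inr g, Sum.inl x => ln g.1.1 x = g.1
  | Sum.inr g, Sum.inr h => g.1 = h.1 ∧ g.2 ≠ h.2

def GG {m a : ℕ} (s : ℕ) (c : Core m a → Fin (m + 1) → Bool) : SimpleGraph (Vt m a s) where
  Adj := adj c
  symm := ⟨by
    rintro (x | g) (y | h) hxy
    · obtain ⟨i, h1, h2⟩ := hxy
      exact ⟨i, h1.symm, h2.symm⟩
    · exact hxy
    · exact hxy
    · exact ⟨hxy.1.symm, hxy.2.symm⟩⟩
  loopless := ⟨by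
    rintro (x | g) hx
    · obtain ⟨i, _, h2⟩ := hx
      exact h2 rfl
    · exact hx.2 rfl⟩

/-- being on the (extended) line `ℓ` -/
def onL {m a s : ℕ} (ℓ : Line m a) : Vt m a s → Prop
  | Sum.inl x => ln ℓ.1 x = ℓ
  | Sum.inr g => g.1 = ℓ

theorem ln_ln {m a : ℕ} (i : Fin (m + 1)) (x : Core m a) : ln (ln i x).1 x = ln i x := rfl

theorem eq_of_two {m a : ℕ} {i j : Fin (m + 1)} {x y : Core m a} (hi : ln i x = ln i y)
    (hj : ln j x = ln j y) (hij : i ≠ j) : x = y := by
  rw [ln_eq_iff] at hi hj
  funext k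
  by_cases hk : k = i
  · subst hk; exact hj _ hij
  · exact hi _ hk

/-- every nonempty clique lies on an extended line -/
theorem clique_onL {m a s : ℕ} (c : Core m a → Fin (m + 1) → Bool) (X : Finset (Vt m a s))
    (hX : (GG s c).IsClique (X : Set (Vt m a s))) (hne : X.Nonempty) :
    ∃ ℓ : Line m a, ∀ v ∈ X, onL ℓ v := by
  by_cases hg : ∃ g, (Sum.inr g : Vt m a s) ∈ X
  · obtain ⟨g, hg⟩ := hg
    refine ⟨g.1, ?_⟩
    rintro (x | h) hv
    · have h1 : (GG s c).Adj (Sum.inl x) (Sum.inr g) := hX hv hg (by simp)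
      exact h1
    · by_cases hgh : (Sum.inr h : Vt m a s) = Sum.inr g
      · have : h = g := by simpa using hgh
        subst this; rfl
      · have h1 : (GG s c).Adj (Sum.inr h) (Sum.inr g) := hX hv hg hgh
        exact h1.1
  · push Not at hg
    by_cases h2 : ∃ x y, x ≠ y ∧ (Sum.inl x : Vt m a s) ∈ X ∧ (Sum.inl y : Vt m a s) ∈ X
    · obtain ⟨x, y, hxy, hx, hy⟩ := h2
      have h1 : (GG s c).Adj (Sum.inl x) (Sum.inl y) := hX hx hy (by simpa using hxy)
      obtain ⟨i, hi, -⟩ := h1
      refine ⟨ln i x, ?_⟩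
      rintro (z | h) hv
      · show ln i z = ln i x
        by_cases hzx : z = x
        · rw [hzx]
        by_cases hzy : z = y
        · rw [hzy, hi]
        have h3 : (GG s c).Adj (Sum.inl z) (Sum.inl x) := hX hv hx (by simpa using hzx)
        have h4 : (GG s c).Adj (Sum.inl z) (Sum.inl y) := hX hv hy (by simpa using hzy)
        obtain ⟨j, hj, -⟩ := h3
        obtain ⟨k, hk, -⟩ := h4
        by_cases hji : j = i
        · rw [← hji]; exact hj
        -- then contradiction
        exfalso
        have hk' : k = j := by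
          by_contra hkj
          -- z and y differ only in coordinate k, z and x only in coordinate j, x and y only in i
          have e1 : z j ≠ x j := by
            intro e
            apply hzx
            funext l
            by_cases hl : l = j
            · subst hl; exact e
            · exact (ln_eq_iff _ _ _).mp hj l hl
          have e2 : x j = y j := (ln_eq_iff _ _ _).mp hi j hji
          have e3 : z j = y j := (ln_eq_iff _ _ _).mp hk j (Ne.symm hkj)
          exact e1 (e3.trans e2.symm)
        subst hk'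
        have e4 : x i ≠ y i := by
          intro e
          apply hxy
          funext l
          by_cases hl : l = i
          · subst hl; exact e
          · exact (ln_eq_iff _ _ _).mp hi l hl
        have e5 : z i = x i := (ln_eq_iff _ _ _).mp hj i (Ne.symm hji)
        have e6 : z i = y i := (ln_eq_iff _ _ _).mp hk i (Ne.symm hji)
        exact e4 (e5.symm.trans e6)
      · exact absurd hv (hg h)
    · push Not at h2
      obtain ⟨v, hv⟩ := hne
      rcases v with x | g
      · refine ⟨ln 0 x, ?_⟩
        rintro (z | h) hz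
        · by_cases hzx : z = x
          · subst hzx; rfl
          · exact absurd hz (h2 x z (Ne.symm hzx) hv)
        · exact absurd hz (hg h)
      · exact absurd hv (hg g)

theorem card_left_le {m a s : ℕ} (c : Core m a → Fin (m + 1) → Bool) (X : Finset (Vt m a s))
    (hX : (GG s c).IsClique (X : Set (Vt m a s))) (ℓ : Line m a) (hℓ : ∀ v ∈ X, onL ℓ v) :
    X.toLeft.card ≤ 2 := by
  have h : ∀ x ∈ X.toLeft, c x ℓ.1 ∈ (univ : Finset Bool) := fun x _ => Finset.mem_univ _
  have := Finset.card_le_card_of_injOn (s := X.toLeft) (t := (univ : Finset Bool))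
    (fun x => c x ℓ.1) (fun x hx => Finset.mem_coe.mpr (Finset.mem_univ _)) (by
      intro x hx y hy hxy
      simp only [Finset.mem_coe, Finset.mem_toLeft] at hx hy
      by_contra hne
      have h1 : (GG s c).Adj (Sum.inl x) (Sum.inl y) := hX hx hy (by simpa using hne)
      obtain ⟨i, hi, hc⟩ := h1
      have h2 : ln ℓ.1 x = ln ℓ.1 y := by
        have e1 : ln ℓ.1 x = ℓ := hℓ _ hx
        have e2 : ln ℓ.1 y = ℓ := hℓ _ hy
        rw [e1, e2]
      by_cases hil : i = ℓ.1
      · rw [hil] at hc; exact hc hxy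
      · exact hne (eq_of_two hi h2 hil))
  simpa using this

theorem right_subset {m a s : ℕ} (X : Finset (Vt m a s)) (ℓ : Line m a) (hℓ : ∀ v ∈ X, onL ℓ v) :
    X.toRight ⊆ (univ : Finset (Fin s)).image (fun j => (ℓ, j)) := by
  intro g hg
  rw [Finset.mem_toRight] at hg
  have h1 : g.1 = ℓ := hℓ _ hg
  rw [Finset.mem_image]
  exact ⟨g.2, Finset.mem_univ _, by rw [← h1]⟩

theorem card_right_le {m a s : ℕ} (X : Finset (Vt m a s)) (ℓ : Line m a) (hℓ : ∀ v ∈ X, onL ℓ v) :
    X.toRight.card ≤ s := by
  refine le_trans (Finset.card_le_card (right_subset X ℓ hℓ)) ?_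
  refine le_trans Finset.card_image_le ?_
  simp

theorem clique_card_le {m a s : ℕ} (c : Core m a → Fin (m + 1) → Bool) (X : Finset (Vt m a s))
    (hX : (GG s c).IsClique (X : Set (Vt m a s))) (hne : X.Nonempty) : X.card ≤ s + 2 := by
  obtain ⟨ℓ, hℓ⟩ := clique_onL c X hX hne
  have h1 := card_left_le c X hX ℓ hℓ
  have h2 := card_right_le X ℓ hℓ
  have h3 := Finset.card_toLeft_add_card_toRight (u := X)
  omega

/-- a maximal clique contains the whole gadget of its line -/
theorem maximal_right {m a s : ℕ} (c : Core m a → Fin (m + 1) → Bool) (X : Finset (Vt m a s))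
    (hX : (GG s c).IsClique (X : Set (Vt m a s)))
    (hmax : ∀ Y : Finset (Vt m a s), (GG s c).IsClique (Y : Set (Vt m a s)) → X ⊆ Y → Y = X)
    (ℓ : Line m a) (hℓ : ∀ v ∈ X, onL ℓ v) : s ≤ X.toRight.card := by
  classical
  set U : Finset (Vt m a s) := (univ : Finset (Fin s)).image (fun j => Sum.inr (ℓ, j)) with hU
  have hmemU : ∀ v ∈ U, ∃ j, v = Sum.inr (ℓ, j) := by
    intro v hv
    rw [hU, Finset.mem_image] at hv
    obtain ⟨j, _, hj⟩ := hv
    exact ⟨j, hj.symm⟩
  have hUX : ∀ u ∈ U, ∀ v ∈ X, u ≠ v → (GG s c).Adj u v := by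
    intro u hu v hv huv
    obtain ⟨j, rfl⟩ := hmemU u hu
    have h1 := hℓ v hv
    rcases v with x | g
    · exact h1
    · have h2 : g.1 = ℓ := h1
      refine ⟨h2.symm, ?_⟩
      intro h3
      apply huv
      have : g = (ℓ, j) := Prod.ext h2 h3.symm
      rw [this]
  have hUU : ∀ u ∈ U, ∀ v ∈ U, u ≠ v → (GG s c).Adj u v := by
    intro u hu v hv huv
    obtain ⟨j, rfl⟩ := hmemU u hu
    obtain ⟨k, rfl⟩ := hmemU v hv
    refine ⟨rfl, ?_⟩
    intro h3
    apply huv
    have h4 : j = k := h3
    rw [h4]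
  have hY : (GG s c).IsClique ((X ∪ U : Finset (Vt m a s)) : Set (Vt m a s)) := by
    intro u hu v hv huv
    simp only [Finset.coe_union, Set.mem_union, Finset.mem_coe] at hu hv
    rcases hu with hu | hu <;> rcases hv with hv | hv
    · exact hX hu hv huv
    · exact (hUX v hv u hu huv.symm).symm
    · exact hUX u hu v hv huv
    · exact hUU u hu v hv huv
  have hEq := hmax _ hY Finset.subset_union_left
  have hsub : U ⊆ X := by rw [← hEq]; exact Finset.subset_union_right
  have h5 : (univ : Finset (Fin s)).image (fun j => (ℓ, j)) ⊆ X.toRight := by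
    intro g hg
    rw [Finset.mem_image] at hg
    obtain ⟨j, _, rfl⟩ := hg
    rw [Finset.mem_toRight]
    apply hsub
    rw [hU, Finset.mem_image]
    exact ⟨j, Finset.mem_univ _, rfl⟩
  have h6 := Finset.card_le_card h5
  rw [Finset.card_image_of_injective _ (fun j k h => (Prod.ext_iff.mp h).2)] at h6
  simpa using h6

/-- degree of a gadget vertex -/
theorem degree_inr {m a s : ℕ} (c : Core m a → Fin (m + 1) → Bool) [DecidableRel (GG s c).Adj]
    (g : Line m a × Fin s) : (GG s c).degree (Sum.inr g) ≤ s + a := by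
  classical
  set f : Fin s ⊕ Fin a → Vt m a s := fun p => match p with
    | Sum.inl j => Sum.inr (g.1, j)
    | Sum.inr b => Sum.inl (Fin.insertNth (α := fun _ => Fin a) g.1.1 b g.1.2) with hf
  have hsub : (GG s c).neighborFinset (Sum.inr g) ⊆ (univ : Finset (Fin s ⊕ Fin a)).image f := by
    intro v hv
    rw [SimpleGraph.mem_neighborFinset] at hv
    rw [Finset.mem_image]
    rcases v with x | h
    · have h1 : ln g.1.1 x = g.1 := hv
      refine ⟨Sum.inr (x g.1.1), Finset.mem_univ _, ?_⟩
      simp only [hf]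
      congr 1
      have h2 : g.1.2 = fun j => x (g.1.1.succAbove j) := by
        have := congrArg Prod.snd h1; exact this.symm
      rw [h2]
      exact Fin.insertNth_self_removeNth (α := fun _ => Fin a) g.1.1 x
    · have h1 : g.1 = h.1 := hv.1
      refine ⟨Sum.inl h.2, Finset.mem_univ _, ?_⟩
      simp only [hf]
      rw [h1]
  rw [← SimpleGraph.card_neighborFinset_eq_degree]
  refine le_trans (Finset.card_le_card hsub) (le_trans Finset.card_image_le ?_)
  simp

/-- degree of a core vertex -/
theorem degree_inl {m a s : ℕ} (c : Core m a → Fin (m + 1) → Bool) [DecidableRel (GG s c).Adj]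
    (x : Core m a) : (GG s c).degree (Sum.inl x) ≤ (m + 1) * (s + a) := by
  classical
  set f : Fin (m + 1) × (Fin s ⊕ Fin a) → Vt m a s := fun p => match p with
    | (i, Sum.inl j) => Sum.inr (ln i x, j)
    | (i, Sum.inr b) => Sum.inl (Function.update x i b) with hf
  have hsub : (GG s c).neighborFinset (Sum.inl x) ⊆
      (univ : Finset (Fin (m + 1) × (Fin s ⊕ Fin a))).image f := by
    intro v hv
    rw [SimpleGraph.mem_neighborFinset] at hv
    rw [Finset.mem_image]
    rcases v with y | h
    · obtain ⟨i, hi, -⟩ := hv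
      refine ⟨(i, Sum.inr (y i)), Finset.mem_univ _, ?_⟩
      simp only [hf]
      congr 1
      funext j
      by_cases hj : j = i
      · subst hj; simp
      · rw [Function.update_of_ne hj]
        exact (ln_eq_iff _ _ _).mp hi j hj
    · have h1 : ln h.1.1 x = h.1 := hv
      refine ⟨(h.1.1, Sum.inl h.2), Finset.mem_univ _, ?_⟩
      simp only [hf]
      rw [h1]
  rw [← SimpleGraph.card_neighborFinset_eq_degree]
  refine le_trans (Finset.card_le_card hsub) (le_trans Finset.card_image_le ?_)
  simp [Fintype.card_prod]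

/-- the core part of an independent set lies in some `SS c σ` -/
theorem indep_subset {m a s : ℕ} (c : Core m a → Fin (m + 1) → Bool) (I : Finset (Vt m a s))
    (hI : (GG s c).IsIndepSet (I : Set (Vt m a s))) :
    ∃ σ : Line m a → Bool, I.toLeft ⊆ SS c σ := by
  classical
  refine ⟨fun ℓ => if h : ∃ y ∈ I.toLeft, ln ℓ.1 y = ℓ then c h.choose ℓ.1 else false, ?_⟩
  intro x hx
  rw [SS, Finset.mem_filter]
  refine ⟨Finset.mem_univ _, ?_⟩
  funext i
  have h : ∃ y ∈ I.toLeft, ln (ln i x).1 y = ln i x := ⟨x, hx, rfl⟩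
  rw [dif_pos h]
  obtain ⟨h1, h2⟩ := h.choose_spec
  set y := h.choose with hy
  show c x i = c y i
  have h3 : ln i y = ln i x := h2
  by_contra hne
  rw [Finset.mem_toLeft] at hx h1
  have hxy : (Sum.inl x : Vt m a s) ≠ Sum.inl y := by
    intro e
    have : x = y := by simpa using e
    exact hne (by rw [← this])
  exact hI hx h1 hxy ⟨i, h3.symm, hne⟩

end Pool.Agent.H972R4.EdwardsKing
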