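import Pool.Agent.H972R4.EdwardsKing.Graph

/-!
# Disproof of the Edwards–King clique-average bound (MP_8e531e_co)
-/

set_option autoImplicit false

open Finset

namespace Pool.Agent.H972R4.EdwardsKing

theorem frac_lower {m a s : ℕ} (c : Core m a → Fin (m + 1) → Bool) (α : ℝ)
    (hα : ∀ σ, ((SS c σ).card : ℝ) ≤ α) (w : Finset (Vt m a s) → ℝ) (hw0 : ∀ I, 0 ≤ w I)
    (hind : ∀ I : Finset (Vt m a s), ¬ (GG s c).IsIndepSet (I : Set (Vt m a s)) → w I = 0)
    (hcov : ∀ v : Vt m a s,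
      1 ≤ ∑ I ∈ Finset.univ.filter (fun I : Finset (Vt m a s) => v ∈ I), w I) :
    (a : ℝ) ^ (m + 1) ≤ α * ∑ I, w I := by
  classical
  have h1 : (a : ℝ) ^ (m + 1) = ∑ _x : Core m a, (1 : ℝ) := by
    rw [Finset.sum_const, Finset.card_univ, card_core]; simp
  rw [h1]
  calc ∑ _x : Core m a, (1 : ℝ)
      ≤ ∑ x : Core m a, ∑ I ∈ Finset.univ.filter (fun I : Finset (Vt m a s) => Sum.inl x ∈ I), w I :=
        Finset.sum_le_sum fun x _ => hcov (Sum.inl x)
    _ = ∑ x : Core m a, ∑ I : Finset (Vt m a s), (if Sum.inl x ∈ I then w I else 0) := by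
        refine Finset.sum_congr rfl fun x _ => ?_
        rw [Finset.sum_filter]
    _ = ∑ I : Finset (Vt m a s), ∑ x : Core m a, (if Sum.inl x ∈ I then w I else 0) :=
        Finset.sum_comm
    _ = ∑ I : Finset (Vt m a s), (I.toLeft.card : ℝ) * w I := by
        refine Finset.sum_congr rfl fun I _ => ?_
        have : ∀ x : Core m a, (if Sum.inl x ∈ I then w I else 0) =
            (if x ∈ I.toLeft then w I else 0) := by
          intro x; simp only [Finset.mem_toLeft]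
        rw [Finset.sum_congr rfl fun x _ => this x, Finset.sum_ite_mem, Finset.univ_inter,
          Finset.sum_const, nsmul_eq_mul]
    _ ≤ ∑ I : Finset (Vt m a s), α * w I := by
        refine Finset.sum_le_sum fun I _ => ?_
        by_cases hI : (GG s c).IsIndepSet (I : Set (Vt m a s))
        · obtain ⟨σ, hσ⟩ := indep_subset c I hI
          have h2 : (I.toLeft.card : ℝ) ≤ α :=
            le_trans (by exact_mod_cast Finset.card_le_card hσ) (hα σ)
          exact mul_le_mul_of_nonneg_right h2 (hw0 I)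
        · rw [hind I hI, mul_zero, mul_zero]
    _ = α * ∑ I, w I := by rw [Finset.mul_sum]

theorem avg_le {m a s : ℕ} (hs : 0 < s) (c : Core m a → Fin (m + 1) → Bool)
    [DecidableRel (GG s c).Adj] (X : Finset (Vt m a s))
    (hX : (GG s c).IsClique (X : Set (Vt m a s))) (hne : X.Nonempty)
    (hmax : ∀ Y : Finset (Vt m a s), (GG s c).IsClique (Y : Set (Vt m a s)) → X ⊆ Y → Y = X) :
    (∑ v ∈ X, (((GG s c).degree v : ℝ) +
        ((sSup {n : ℕ | ∃ t : Finset (Vt m a s), (GG s c).IsNClique n t ∧ v ∈ t} : ℕ) : ℝ)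
          + 1) / 2) / (X.card : ℝ) ≤
      ((s : ℝ) * (((s + a : ℕ) + (s + 2 : ℕ) + 1) / 2) +
        2 * ((((m + 1) * (s + a) : ℕ) + (s + 2 : ℕ) + 1) / 2)) / s := by
  classical
  obtain ⟨ℓ, hℓ⟩ := clique_onL c X hX hne
  have h1 := card_left_le c X hX ℓ hℓ
  have h2 := card_right_le X ℓ hℓ
  have h3 := maximal_right c X hX hmax ℓ hℓ
  have h4 : X.toLeft.card + X.toRight.card = X.card := Finset.card_toLeft_add_card_toRight (u := X)
  have hsup : ∀ v : Vt m a s,
      sSup {n : ℕ | ∃ t : Finset (Vt m a s), (GG s c).IsNClique n t ∧ v ∈ t} ≤ s + 2 := by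
    intro v
    refine csSup_le' ?_
    rintro n ⟨t, ht, hv⟩
    rw [← ht.card_eq]
    exact clique_card_le c t ht.isClique ⟨v, hv⟩
  set f : Vt m a s → ℝ := fun v => (((GG s c).degree v : ℝ) +
        ((sSup {n : ℕ | ∃ t : Finset (Vt m a s), (GG s c).IsNClique n t ∧ v ∈ t} : ℕ) : ℝ)
          + 1) / 2 with hf
  have hsum : ∑ v ∈ X, f v = ∑ x ∈ X.toLeft, f (Sum.inl x) + ∑ g ∈ X.toRight, f (Sum.inr g) := by
    conv_lhs => rw [← Finset.toLeft_disjSum_toRight (u := X)]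
    rw [Finset.sum_disjSum]
  set Wg : ℝ := ((s + a : ℕ) + (s + 2 : ℕ) + 1) / 2 with hWg
  set Wc : ℝ := (((m + 1) * (s + a) : ℕ) + (s + 2 : ℕ) + 1) / 2 with hWc
  have hfc : ∀ x : Core m a, f (Sum.inl x) ≤ Wc := by
    intro x
    have e1 : (((GG s c).degree (Sum.inl x) : ℕ) : ℝ) ≤ (((m + 1) * (s + a) : ℕ) : ℝ) := by
      exact_mod_cast degree_inl c x
    have e2 : ((sSup {n : ℕ | ∃ t : Finset (Vt m a s),
        (GG s c).IsNClique n t ∧ Sum.inl x ∈ t} : ℕ) : ℝ) ≤ ((s + 2 : ℕ) : ℝ) := by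
      exact_mod_cast hsup (Sum.inl x)
    simp only [hf, hWc]
    linarith
  have hfg : ∀ g : Line m a × Fin s, f (Sum.inr g) ≤ Wg := by
    intro g
    have e1 : (((GG s c).degree (Sum.inr g) : ℕ) : ℝ) ≤ ((s + a : ℕ) : ℝ) := by
      exact_mod_cast degree_inr c g
    have e2 : ((sSup {n : ℕ | ∃ t : Finset (Vt m a s),
        (GG s c).IsNClique n t ∧ Sum.inr g ∈ t} : ℕ) : ℝ) ≤ ((s + 2 : ℕ) : ℝ) := by
      exact_mod_cast hsup (Sum.inr g)
    simp only [hf, hWg]
    linarith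
  have hWg0 : 0 ≤ Wg := by rw [hWg]; positivity
  have hWc0 : 0 ≤ Wc := by rw [hWc]; positivity
  have hle : ∑ v ∈ X, f v ≤ s * Wg + 2 * Wc := by
    rw [hsum]
    have a1 : ∑ x ∈ X.toLeft, f (Sum.inl x) ≤ X.toLeft.card * Wc := by
      have := Finset.sum_le_card_nsmul X.toLeft (fun x => f (Sum.inl x)) Wc (fun x _ => hfc x)
      simpa [nsmul_eq_mul] using this
    have a2 : ∑ g ∈ X.toRight, f (Sum.inr g) ≤ X.toRight.card * Wg := by
      have := Finset.sum_le_card_nsmul X.toRight (fun g => f (Sum.inr g)) Wg (fun g _ => hfg g)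
      simpa [nsmul_eq_mul] using this
    have a3 : (X.toLeft.card : ℝ) * Wc ≤ 2 * Wc :=
      mul_le_mul_of_nonneg_right (by exact_mod_cast h1) hWc0
    have a4 : (X.toRight.card : ℝ) * Wg ≤ s * Wg :=
      mul_le_mul_of_nonneg_right (by exact_mod_cast h2) hWg0
    linarith
  have hcard : (s : ℝ) ≤ X.card := by
    have : s ≤ X.card := by omega
    exact_mod_cast this
  have hs' : (0 : ℝ) < s := by exact_mod_cast hs
  calc (∑ v ∈ X, f v) / (X.card : ℝ) ≤ (s * Wg + 2 * Wc) / (X.card : ℝ) := by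
        apply div_le_div_of_nonneg_right hle; positivity
    _ ≤ (s * Wg + 2 * Wc) / s := by
        apply div_le_div_of_nonneg_left _ hs' hcard
        positivity

theorem not_edwards_king :
    ¬ (∀ (V : Type) [Fintype V] [DecidableEq V] [Nonempty V]
      (G : SimpleGraph V) [DecidableRel G.Adj],
      ∃ w : Finset V → ℝ,
        (∀ s, 0 ≤ w s) ∧
        (∀ s : Finset V, ¬ G.IsIndepSet (s : Set V) → w s = 0) ∧
        (∀ v : V, 1 ≤ ∑ s ∈ Finset.univ.filter (fun s : Finset V => v ∈ s), w s) ∧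
        ∃ X : Finset V, G.IsClique (X : Set V) ∧
          (∀ Y : Finset V, G.IsClique (Y : Set V) → X ⊆ Y → Y = X) ∧
          ∑ s, w s ≤
            (∑ v ∈ X, ((G.degree v : ℝ) +
                ((sSup {n : ℕ | ∃ s : Finset V, G.IsNClique n s ∧ v ∈ s} : ℕ) : ℝ)
                + 1) / 2) / (X.card : ℝ)) := by
  classical
  intro h
  obtain ⟨m, hm⟩ : ∃ m : ℕ, m = 59 := ⟨_, rfl⟩
  obtain ⟨a, ha⟩ : ∃ a : ℕ, a = 2 ^ 20 := ⟨_, rfl⟩
  obtain ⟨s, hs⟩ : ∃ s : ℕ, s = 2 ^ 13 := ⟨_, rfl⟩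
  obtain ⟨c, hc⟩ := exists_coloring m a 20 ha (by omega)
  have ha0 : 0 < a := by rw [ha]; positivity
  have hs0 : 0 < s := by rw [hs]; positivity
  have : Nonempty (Vt m a s) := ⟨Sum.inl (fun _ => ⟨0, ha0⟩)⟩
  obtain ⟨w, hw0, hind, hcov, X, hX, hmax, hle⟩ := h (Vt m a s) (GG s c)
  have hne : X.Nonempty := by
    rw [Finset.nonempty_iff_ne_empty]
    intro he
    have h1 : (GG s c).IsClique
        (({(Sum.inl (fun _ => ⟨0, ha0⟩) : Vt m a s)} : Finset (Vt m a s)) : Set (Vt m a s)) := by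
      simp
    have h2 := hmax _ h1 (by rw [he]; exact Finset.empty_subset _)
    rw [he] at h2
    exact Finset.singleton_ne_empty _ h2
  have hB := le_trans hle (avg_le hs0 c X hX hne hmax)
  have hα : ∀ σ, ((SS c σ).card : ℝ) ≤ 62 / 40 * (a : ℝ) ^ m := by
    intro σ
    have h1 := hc σ
    have e1 : m + 1 - 20 = 40 := by omega
    have e2 : m + 3 = 62 := by omega
    rw [e1, e2] at h1
    have h2 : (40 : ℝ) * ((SS c σ).card : ℝ) ≤ 62 * (a : ℝ) ^ m := by
      exact_mod_cast h1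
    linarith
  have hlow := frac_lower c _ hα w hw0 hind hcov
  have hP : (0 : ℝ) < (a : ℝ) ^ m := by positivity
  have h5 : (a : ℝ) ≤ 62 / 40 * ∑ I, w I := by
    have e1 : (a : ℝ) ^ m * a ≤ (a : ℝ) ^ m * (62 / 40 * ∑ I, w I) := by
      rw [← pow_succ]
      refine hlow.trans (le_of_eq ?_)
      ring
    exact le_of_mul_le_mul_left e1 hP
  have h6 : (a : ℝ) = 1048576 := by rw [ha]; norm_num
  have h7 : (s : ℝ) = 8192 := by rw [hs]; norm_num
  have h8 : (m : ℝ) = 59 := by rw [hm]; norm_num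
  push_cast at hB
  rw [h6, h7, h8] at hB
  rw [h6] at h5
  norm_num at hB
  linarith

end Pool.Agent.H972R4.EdwardsKing
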